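import Pool.Agent.U645.LB.E

/-!
# The Liouville summatory function oscillates around its bias in every window `[x, x log x]`

`L(x) = ∑_{n ≤ x} λ(n)`, `F(x) = x^(1/2) (log log log x)^(5/4)`. The pole of `ζ(2s)` gives `L(x)` the bias
`x^(1/2)/ζ(1/2)`, which is of the same order of magnitude as the oscillating terms of the zeros on the critical
line, and negative. We prove, with no hypothesis:

1. Let `ρ` be a zero of `ζ` with `1/2 ≤ Re ρ < 1`, of multiplicity `m`. There is `c > 0` such that for ALL large `x`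
   and both signs `s` some `y ∈ [x, x log x]` satisfies `s (L(y) - y^(1/2)/ζ(1/2)) ≥ c y^(Re ρ) (log y)^(m-1)`.
2. There is `c > 0` such that for all large `x` and both signs `s` some `y ∈ [x, x log x]` satisfies
   `s (L(y) - y^(1/2)/ζ(1/2)) ≥ c y^(1/2)`.
3. If for one sign `s` and every `ε > 0` there are arbitrarily large `x` with `s L(y) ≤ ε y^(1/2) log y` for all
   `y ∈ [x, x log x]`, then the Riemann hypothesis holds and all nontrivial zeros of `ζ` are simple.
4. In particular this is true if for one sign `s` and one `K` the bound `s L(y) ≤ K F(y)` holds on `[x, x log x]`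
   for arbitrarily large `x` (a one-sided bound on sparse windows, instead of both bounds of Q2 for all `y`).

Method: averages of `L` in the logarithmic scale against the theta kernel of the starting library (`H313R3.TK`), whose
Mellin transform is `ζ` times a function without zeros in the critical strip. The average of the centered function is
bounded, because the transform of the kernel at `1/2` cancels the bias. If the kernel is integrated `m` times against
`e^(ρv)` (it stays a kernel with the same decay since `ρ` is a zero of order `m` of its transform) the average of the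
centered function is asymptotic to `C t^(m-1) e^(ρt)`, where `C` is a nonzero multiple of `ζ(2ρ)`.
-/

set_option autoImplicit false

open Filter Topology Set

namespace Pool.Agent.Results.MP_a499ba_nt.CenteredLogWindows

/-- The summatory function `L` of the Liouville function. -/
noncomputable def L (x : ℝ) : ℝ :=
  ∑ n ∈ Finset.Icc 1 ⌊x⌋₊, ((ArithmeticFunction.liouville n : ℤ) : ℝ)

/-- `F(x) = x^(1/2) (log log log x)^(5/4)`. -/
noncomputable def F (x : ℝ) : ℝ := x ^ (1 / 2 : ℝ) * Real.log (Real.log (Real.log x)) ^ (5 / 4 : ℝ)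

/-- The bias `x^(1/2)/ζ(1/2)` of `L`, as a real number (`ζ(1/2)` is real and negative). -/
noncomputable def bias (x : ℝ) : ℝ := Real.sqrt x / (riemannZeta (1 / 2)).re

/-- The Riemann hypothesis and the simplicity of all nontrivial zeros. -/
def RHSimple : Prop :=
  ∀ ρ : ℂ, riemannZeta ρ = 0 → 0 < ρ.re → ρ.re < 1 → ρ.re = 1 / 2 ∧ deriv riemannZeta ρ ≠ 0

lemma L_eq (x : ℝ) : L x = Pool.Agent.R303.LW.LL x := rfl

lemma bias_eq (x : ℝ) : bias x = Real.sqrt x / Pool.Agent.U645.LB.Z := by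
  unfold bias
  rw [Pool.Agent.U645.LB.zeta_half, Complex.ofReal_re]

lemma F_small (K : ℝ) {ε : ℝ} (hε : 0 < ε) :
    ∀ᶠ x : ℝ in atTop, ∀ y ≥ x, K * F y ≤ ε * (Real.sqrt y * Real.log y) := by
  have h1 : ∀ᶠ u : ℝ in atTop, |K| * Real.log (Real.log u) ^ (5 / 4 : ℝ) ≤ ε * u := by
    have h2 := (isLittleO_log_rpow_rpow_atTop (s := 1) (5 / 4) one_pos).bound (c := ε / (|K| + 1)) (by positivity)
    filter_upwards [h2, eventually_ge_atTop (Real.exp 1)] with u hu hu1
    have hu0 : 0 < u := (Real.exp_pos 1).trans_le hu1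
    have hl1 : 1 ≤ Real.log u := by rwa [Real.le_log_iff_exp_le hu0]
    have hll : 0 ≤ Real.log (Real.log u) := Real.log_nonneg hl1
    have h3 : Real.log (Real.log u) ≤ Real.log u := by
      have := Real.log_le_sub_one_of_pos (show 0 < Real.log u by linarith)
      linarith
    have h4 : Real.log (Real.log u) ^ (5 / 4 : ℝ) ≤ Real.log u ^ (5 / 4 : ℝ) :=
      Real.rpow_le_rpow hll h3 (by norm_num)
    rw [Real.norm_of_nonneg (by positivity), Real.norm_of_nonneg (by positivity), Real.rpow_one] at hu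
    have h5 : 0 ≤ |K| := abs_nonneg K
    calc |K| * Real.log (Real.log u) ^ (5 / 4 : ℝ) ≤ (|K| + 1) * Real.log u ^ (5 / 4 : ℝ) := by
          have h6 : 0 ≤ Real.log u ^ (5 / 4 : ℝ) := by positivity
          nlinarith [mul_le_mul_of_nonneg_left h4 h5]
      _ ≤ (|K| + 1) * (ε / (|K| + 1) * u) := by gcongr
      _ = ε * u := by field_simp
  obtain ⟨N, hN⟩ := (Real.tendsto_log_atTop.eventually (h1.and (eventually_ge_atTop (Real.exp 1)))).exists_forall_of_atTop
  filter_upwards [eventually_ge_atTop N, eventually_ge_atTop (1:ℝ)] with x hx hx1 y hy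
  obtain ⟨h2, h3⟩ := hN y (hx.trans hy)
  have hy0 : 0 < y := by linarith
  have hl1 : 1 ≤ Real.log (Real.log y) := by
    rwa [Real.le_log_iff_exp_le ((Real.exp_pos 1).trans_le h3)]
  have hlll : 0 ≤ Real.log (Real.log (Real.log y)) := Real.log_nonneg hl1
  unfold F
  rw [← Real.sqrt_eq_rpow]
  have h4 : K * Real.log (Real.log (Real.log y)) ^ (5 / 4 : ℝ) ≤ |K| * Real.log (Real.log (Real.log y)) ^ (5 / 4 : ℝ) :=
    mul_le_mul_of_nonneg_right (le_abs_self K) (by positivity)
  calc K * (Real.sqrt y * Real.log (Real.log (Real.log y)) ^ (5 / 4 : ℝ)) =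
        Real.sqrt y * (K * Real.log (Real.log (Real.log y)) ^ (5 / 4 : ℝ)) := by ring
    _ ≤ Real.sqrt y * (ε * Real.log y) := mul_le_mul_of_nonneg_left (h4.trans h2) (Real.sqrt_nonneg y)
    _ = _ := by ring

theorem result :
    ((riemannZeta (1 / 2)).im = 0 ∧ (riemannZeta (1 / 2)).re < 0) ∧
    (∀ ρ : ℂ, riemannZeta ρ = 0 → 1 / 2 ≤ ρ.re → ρ.re < 1 →
      ∃ c : ℝ, 0 < c ∧ ∀ᶠ x : ℝ in atTop, ∀ s : ℝ, s = 1 ∨ s = -1 → ∃ y ∈ Icc x (x * Real.log x),
        c * (y ^ ρ.re * Real.log y ^ (analyticOrderNatAt riemannZeta ρ - 1)) ≤ s * (L y - bias y)) ∧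
    (∃ c : ℝ, 0 < c ∧ ∀ᶠ x : ℝ in atTop, ∀ s : ℝ, s = 1 ∨ s = -1 → ∃ y ∈ Icc x (x * Real.log x),
        c * Real.sqrt y ≤ s * (L y - bias y)) ∧
    (∀ s : ℝ, s = 1 ∨ s = -1 →
      (∀ ε : ℝ, 0 < ε → ∃ᶠ x : ℝ in atTop, ∀ y ∈ Icc x (x * Real.log x),
        s * L y ≤ ε * (Real.sqrt y * Real.log y)) → RHSimple) ∧
    (∀ s K : ℝ, s = 1 ∨ s = -1 →
      (∃ᶠ x : ℝ in atTop, ∀ y ∈ Icc x (x * Real.log x), s * L y ≤ K * F y) → RHSimple) := by
  have p4 : ∀ s : ℝ, s = 1 ∨ s = -1 →
      (∀ ε : ℝ, 0 < ε → ∃ᶠ x : ℝ in atTop, ∀ y ∈ Icc x (x * Real.log x),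
        s * L y ≤ ε * (Real.sqrt y * Real.log y)) → RHSimple := by
    intro s hs h ρ hz h0 h1
    exact Pool.Agent.U645.LB.one_sided hs h ρ hz h0 h1
  refine ⟨?_, ?_, ?_, p4, ?_⟩
  · rw [Pool.Agent.U645.LB.zeta_half, Complex.ofReal_re, Complex.ofReal_im]
    exact ⟨rfl, Pool.Agent.U645.LB.Z_neg⟩
  · intro ρ hz h0 h1
    obtain ⟨c, hc, h⟩ := Pool.Agent.U645.LB.signsC hz h0 h1 (Pool.Agent.U645.LB.order_pos hz h1)
    refine ⟨c, hc, ?_⟩
    filter_upwards [h] with x hx s hs
    obtain ⟨y, hy, hy2⟩ := hx s hs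
    exact ⟨y, hy, by rw [bias_eq]; exact hy2⟩
  · obtain ⟨ρ, hz, h0, h1⟩ := H313.TK.exists_zero
    obtain ⟨c, hc, h⟩ := Pool.Agent.U645.LB.signsC (j := 0) hz h0 h1 (by
      have := Pool.Agent.U645.LB.order_pos hz h1
      refine le_trans ?_ this
      exact_mod_cast (by omega : 0 + 1 ≤ analyticOrderNatAt riemannZeta ρ - 1 + 1))
    refine ⟨c, hc, ?_⟩
    filter_upwards [h, eventually_ge_atTop (1:ℝ)] with x hx hx1 s hs
    obtain ⟨y, hy, hy2⟩ := hx s hs
    refine ⟨y, hy, ?_⟩
    rw [bias_eq]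
    refine le_trans ?_ hy2
    rw [pow_zero, mul_one, Real.sqrt_eq_rpow]
    exact mul_le_mul_of_nonneg_left (Real.rpow_le_rpow_of_exponent_le (hx1.trans hy.1) h0) hc.le
  · intro s K hs h
    refine p4 s hs fun ε hε => ?_
    refine (h.and_eventually (F_small K hε)).mono fun x hx y hy => ?_
    exact (hx.1 y hy).trans (hx.2 y hy.1)

end Pool.Agent.Results.MP_a499ba_nt.CenteredLogWindows
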