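import Pool.Agent.U441.MP.Cr
import Pool.Agent.U441.MP.In
import Pool.Agent.U441.MP.Ke

/-!
# Ingham's theorem for the Mertens and Liouville functions along powers

Let `k > 0`, `q > 0`, `r ≥ 0` be real numbers and `x_n = (q n + r)^k`, for instance the `k`-th powers
of the integers; consecutive members of this sequence are `≍ x^(1 - 1/k)` apart. We prove, without
any hypothesis, that the `Ω±` theorems for `M(x)` and for `L(x)` hold along every such sequence, with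
the same constants:

* for every zero `ρ` with `Re ρ ≥ 1/2` and every `c < 1 / |ρ ζ'(ρ)|`, for both signs, often
  `± M(x_n) > c (q n + r)^(k Re ρ)`;
* (Ingham's theorem) for every admissible kernel `g` (the kernels of Fejér and of Jurkat–Peyerimhoff
  are examples), every real `y` and every `c` smaller than
  `± ∑_γ g(γ) Re (e^(iγy) / (ρ ζ'(ρ)))`, `ρ = 1/2 + iγ`, often `± M(x_n) > c (q n + r)^(k/2)`.

Here often means: for every `ε > 0` there are infinitely many `N` such that more than `N^(1 - ε)` of the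
`n ≤ N` have the property. The same holds for `L(x) - √x / ζ(1/2)`, with the factor `ζ(2ρ)`.
-/

set_option autoImplicit false

open Filter Topology Complex

namespace Pool.Agent.Results.MP_a499ba_nt.PowersOscillation

/-- the Mertens function `M(x)` -/
noncomputable def M (x : ℝ) : ℤ := ∑ n ∈ Finset.Icc 1 ⌊x⌋₊, ArithmeticFunction.moebius n

/-- the summatory function `L(x)` of the Liouville function `(-1)^Ω(n)` -/
noncomputable def L (x : ℝ) : ℤ := ∑ n ∈ Finset.Icc 1 ⌊x⌋₊, (-1) ^ ArithmeticFunction.cardFactors n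

open Classical in
/-- the number of the `n ∈ {1, …, N}` with the property `E` -/
noncomputable def count (E : ℕ → Prop) (N : ℕ) : ℕ := ((Finset.Icc 1 N).filter E).card

/-- `E` holds often: for every `ε > 0` there are infinitely many `N` such that more than `N^(1 - ε)`
of the `n ≤ N` have the property `E` -/
def Often (E : ℕ → Prop) : Prop :=
  ∀ ε : ℝ, 0 < ε → ∃ᶠ N : ℕ in atTop, (N : ℝ) ^ (1 - ε) < count E N

/-- Gonek's function `F(x) = x^(1/2) (log log log x)^(5/4)` -/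
noncomputable def F (x : ℝ) : ℝ := x ^ (1 / 2 : ℝ) * Real.log (Real.log (Real.log x)) ^ (5 / 4 : ℝ)

/-- `ζ(1/2)`, a real number -/
noncomputable def z₀ : ℝ := (riemannZeta (1 / 2)).re

/-- admissible kernels: even positive definite functions with `g(0) = 1` and bounded support -/
def Kernel (g : ℝ → ℝ) : Prop :=
  (∀ x, g (-x) = g x) ∧
  (∀ (S : Finset ℝ) (x : ℝ → ℝ), 0 ≤ ∑ s ∈ S, ∑ s' ∈ S, x s * x s' * g (s - s')) ∧
  g 0 = 1 ∧ ∃ T : ℝ, ∀ x, T < |x| → g x = 0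

/-- the kernel `1 - |x|/T` for `|x| ≤ T` of Fejér and Ingham -/
noncomputable def fejer (T x : ℝ) : ℝ := max 0 (1 - |x| / T)

/-- the kernel of Jurkat and Peyerimhoff -/
noncomputable def jp (T x : ℝ) : ℝ :=
  if |x| ≤ T then (1 - |x| / T) * Real.cos (Real.pi * x / T) + Real.sin (Real.pi * |x| / T) / Real.pi else 0

/-- Ingham's sum for `M`: the sum of `g(γ) Re (e^(iγy) / (ρ ζ'(ρ)))` over the zeros `ρ = 1/2 + iγ` -/
noncomputable def hM (g : ℝ → ℝ) (y : ℝ) : ℝ :=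
  ∑ᶠ γ ∈ {γ : ℝ | g γ ≠ 0 ∧ riemannZeta (1 / 2 + I * γ) = 0},
    g γ * (exp (I * γ * y) / ((1 / 2 + I * γ) * deriv riemannZeta (1 / 2 + I * γ))).re

/-- Ingham's sum for `L`: the sum of `g(γ) Re (e^(iγy) ζ(2ρ) / (ρ ζ'(ρ)))` over the zeros `ρ = 1/2 + iγ` -/
noncomputable def hL (g : ℝ → ℝ) (y : ℝ) : ℝ :=
  ∑ᶠ γ ∈ {γ : ℝ | g γ ≠ 0 ∧ riemannZeta (1 / 2 + I * γ) = 0},
    g γ * (exp (I * γ * y) * riemannZeta (1 + 2 * I * γ) /
      ((1 / 2 + I * γ) * deriv riemannZeta (1 / 2 + I * γ))).re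

open U441.MP

lemma M_eq (x : ℝ) : Sa muR x = (M x : ℝ) := by
  unfold Sa M muR
  push_cast
  rfl

lemma L_eq (x : ℝ) : Sa laR x = (L x : ℝ) := by
  unfold Sa L
  push_cast
  refine Finset.sum_congr rfl fun n hn => ?_
  rw [Finset.mem_Icc] at hn
  exact laR_eq (by omega)

lemma count_eq (E : ℕ → Prop) (N : ℕ) : count E N = cnt E N := rfl

lemma z₀_spec : riemannZeta (1 / 2) = (z₀ : ℂ) := by
  have h := riemannZeta_conj (1 / 2)
  have e : (starRingEnd ℂ) (1 / 2) = (1 / 2 : ℂ) := by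
    rw [map_div₀, map_one, map_ofNat]
  rw [e] at h
  exact (Complex.conj_eq_iff_re.1 h.symm).symm

lemma fz_half : (Pool.Agent.H295R2.fz (1 / 2)).re = 1 / z₀ := by
  rw [Pool.Agent.H295R2.fz_eq (by norm_num), z₀_spec, ← Complex.ofReal_inv, Complex.ofReal_re, one_div]

lemma abs_sg {s : ℝ} (h : s = 1 ∨ s = -1) : |s| = 1 := by
  rcases h with rfl | rfl <;> simp

lemma deriv_bound (ρ : ℂ) : ‖ρ‖ * ‖deriv riemannZeta ρ‖ = ‖ρ * deriv riemannZeta ρ‖ := (norm_mul _ _).symm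

lemma Often.congr_pred {E₁ E₂ : ℕ → Prop} (h : E₁ = E₂) (h1 : Often E₁) : Often E₂ := h ▸ h1

/-- enlarging the property, up to finitely many `n` -/
theorem Often.mono {E₁ E₂ : ℕ → Prop} (h : Often E₁) (h2 : ∀ᶠ n in atTop, E₁ n → E₂ n) : Often E₂ := by
  intro ε hε
  obtain ⟨n₁, hn₁⟩ := eventually_atTop.1 h2
  refine ((h (min ε 1 / 2) (by positivity)).and_eventually (absorb hε n₁)).mono fun N hN => ?_
  have h3 := cnt_mono hn₁ N
  have h4 : (count E₁ N : ℝ) ≤ count E₂ N + n₁ := by exact_mod_cast h3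
  linarith [hN.1, hN.2]

lemma U_la {z : ℂ} (hz : 1 / 2 ≤ z.re) (hz' : z.im ≠ 0) :
    ContinuousAt (fun z : ℂ => riemannZeta (2 * z)) z ∧ riemannZeta (2 * z) ≠ 0 := by
  have h2 : (2 * z : ℂ) ≠ 1 := by
    intro h
    have := congrArg Complex.im h
    simp at this
    exact hz' this
  refine ⟨((differentiableAt_riemannZeta h2).comp z (differentiableAt_id.const_mul 2)).continuousAt, ?_⟩
  refine riemannZeta_ne_zero_of_one_le_re ?_
  have : (2 * z).re = 2 * z.re := by simp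
  rw [this]
  linarith

theorem moebius_part {ρ : ℂ} (hρ : riemannZeta ρ = 0) (hρ2 : 1 / 2 ≤ ρ.re) {k q r c s : ℝ} (hk : 0 < k)
    (hq : 0 < q) (hr : 0 ≤ r) (hc : c * ‖ρ * deriv riemannZeta ρ‖ < 1) (hs : s = 1 ∨ s = -1) :
    Often fun n => c * (q * n + r) ^ (k * ρ.re) < s * M ((q * n + r) ^ k) := by
  intro ε hε
  have h := osc md_mu fam_mu res_mu hρ hρ2 (by fun_prop) (κ := k) (q := q) (r := r) (c := c) (sg := s) (ε := ε)
    hk hq hr (abs_sg hs) hε (by rw [deriv_bound, norm_one]; exact hc)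
  have e : (fun n : ℕ => c * yy q r n ^ (k * ρ.re) < s * (Sa muR (yy q r n ^ k) - 0 * yy q r n ^ (k * (1 / 2)))) =
      fun n : ℕ => c * (q * n + r) ^ (k * ρ.re) < s * M ((q * n + r) ^ k) := by
    funext n
    rw [zero_mul, sub_zero, M_eq]
    rfl
  rw [e] at h
  exact h

theorem liouville_part {ρ : ℂ} (hρ : riemannZeta ρ = 0) (hρ2 : 1 / 2 ≤ ρ.re) {k q r c s : ℝ} (hk : 0 < k)
    (hq : 0 < q) (hr : 0 ≤ r) (hc : c * ‖ρ * deriv riemannZeta ρ‖ < ‖riemannZeta (2 * ρ)‖)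
    (hs : s = 1 ∨ s = -1) :
    Often fun n => c * (q * n + r) ^ (k * ρ.re) <
      s * (L ((q * n + r) ^ k) - 1 / z₀ * (q * n + r) ^ (k / 2)) := by
  intro ε hε
  have him : ρ.im ≠ 0 := zero_im hρ (by linarith)
  have h := osc md_la fam_la res_la hρ hρ2 (U_la hρ2 him).1 (κ := k) (q := q) (r := r) (c := c) (sg := s) (ε := ε)
    hk hq hr (abs_sg hs) hε (by rw [deriv_bound]; exact hc)
  have e : (fun n : ℕ => c * yy q r n ^ (k * ρ.re) <
      s * (Sa laR (yy q r n ^ k) - (Pool.Agent.H295R2.fz (1 / 2)).re * yy q r n ^ (k * (1 / 2)))) =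
      fun n : ℕ => c * (q * n + r) ^ (k * ρ.re) < s * (L ((q * n + r) ^ k) - 1 / z₀ * (q * n + r) ^ (k / 2)) := by
    funext n
    rw [L_eq, fz_half, show k * (1 / 2) = k / 2 by ring]
    rfl
  rw [e] at h
  exact h

theorem ingham_moebius {g : ℝ → ℝ} (hg : Kernel g) {y k q r c s : ℝ} (hk : 0 < k) (hq : 0 < q) (hr : 0 ≤ r)
    (hs : s = 1 ∨ s = -1) (hc : c < s * hM g y) :
    Often fun n => c * (q * n + r) ^ (k / 2) < s * M ((q * n + r) ^ k) := by
  intro ε hε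
  obtain ⟨g1, g2, g3, T, g4⟩ := hg
  have e0 : hh (fun _ => 1) g y = hM g y := by
    unfold hh hM
    refine finsum_mem_congr rfl fun γ _ => ?_
    rw [mul_one_div]
  have h := ingham md_mu fam_mu res_mu (fun z _ _ => ⟨by fun_prop, one_ne_zero⟩) ⟨g1, g2⟩ g3 g4
    (κ := k) (q := q) (r := r) (c := c) (sg := s) (ε := ε) (y := y) hk hq hr (abs_sg hs) hε (by rw [e0]; exact hc)
  have e : (fun n : ℕ => c * yy q r n ^ (k * (1 / 2)) <
      s * (Sa muR (yy q r n ^ k) - 0 * yy q r n ^ (k * (1 / 2)))) =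
      fun n : ℕ => c * (q * n + r) ^ (k / 2) < s * M ((q * n + r) ^ k) := by
    funext n
    rw [zero_mul, sub_zero, M_eq, show k * (1 / 2) = k / 2 by ring]
    rfl
  rw [e] at h
  exact h

theorem ingham_liouville {g : ℝ → ℝ} (hg : Kernel g) {y k q r c s : ℝ} (hk : 0 < k) (hq : 0 < q) (hr : 0 ≤ r)
    (hs : s = 1 ∨ s = -1) (hc : c < s * hL g y) :
    Often fun n => c * (q * n + r) ^ (k / 2) <
      s * (L ((q * n + r) ^ k) - 1 / z₀ * (q * n + r) ^ (k / 2)) := by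
  intro ε hε
  obtain ⟨g1, g2, g3, T, g4⟩ := hg
  have e0 : hh (fun z => riemannZeta (2 * z)) g y = hL g y := by
    unfold hh hL
    refine finsum_mem_congr rfl fun γ _ => ?_
    simp only
    rw [show (2 * (1 / 2 + I * (γ : ℂ)) : ℂ) = 1 + 2 * I * γ by ring, mul_div_assoc]
  have h := ingham md_la fam_la res_la (fun z hz hz' => U_la hz hz') ⟨g1, g2⟩ g3 g4
    (κ := k) (q := q) (r := r) (c := c) (sg := s) (ε := ε) (y := y) hk hq hr (abs_sg hs) hε (by rw [e0]; exact hc)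
  have e : (fun n : ℕ => c * yy q r n ^ (k * (1 / 2)) <
      s * (Sa laR (yy q r n ^ k) - (Pool.Agent.H295R2.fz (1 / 2)).re * yy q r n ^ (k * (1 / 2)))) =
      fun n : ℕ => c * (q * n + r) ^ (k / 2) < s * (L ((q * n + r) ^ k) - 1 / z₀ * (q * n + r) ^ (k / 2)) := by
    funext n
    rw [L_eq, fz_half, show k * (1 / 2) = k / 2 by ring]
    rfl
  rw [e] at h
  exact h

theorem kernels {T : ℝ} (hT : 0 < T) : Kernel (fejer T) ∧ Kernel (jp T) := by
  refine ⟨⟨(fejer_pd hT).1, (fejer_pd hT).2, ?_, T, fun x hx => ?_⟩, ⟨(jp_pd hT).1, (jp_pd hT).2, ?_, T, fun x hx => ?_⟩⟩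
  · simp [fejer]
  · unfold fejer
    refine max_eq_left ?_
    rw [sub_nonpos, le_div_iff₀ hT]
    linarith
  · simp [jp, hT.le]
  · unfold jp
    rw [if_neg (not_le.2 hx)]

/-- one constant for all powers and all progressions -/
theorem uniform_part : ∃ c : ℝ, 0 < c ∧ ∀ k q r s : ℝ, 0 < k → 0 < q → 0 ≤ r → s = 1 ∨ s = -1 →
    (Often fun n => c * (q * n + r) ^ (k / 2) < s * M ((q * n + r) ^ k)) ∧
    (Often fun n => c * (q * n + r) ^ (k / 2) <
      s * (L ((q * n + r) ^ k) - 1 / z₀ * (q * n + r) ^ (k / 2))) := by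
  obtain ⟨ρ, hρ, hρ2, hρ1, -, -⟩ := H332.FL.exists_zero_re_ge_half 0
  have hζ : riemannZeta (2 * ρ) ≠ 0 := (U_la hρ2 (zero_im hρ (by linarith))).2
  set m : ℝ := min 1 ‖riemannZeta (2 * ρ)‖ with hm
  have hm0 : 0 < m := lt_min one_pos (norm_pos_iff.2 hζ)
  have hm1 : m ≤ 1 := min_le_left _ _
  have hm2 : m ≤ ‖riemannZeta (2 * ρ)‖ := min_le_right _ _
  set D : ℝ := ‖ρ * deriv riemannZeta ρ‖ with hD
  have hD0 : 0 ≤ D := norm_nonneg _
  set c : ℝ := m / (2 * (D + 1)) with hc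
  have hc0 : 0 < c := by rw [hc]; positivity
  have hcD : c * D < m := by
    rw [hc, div_mul_eq_mul_div, div_lt_iff₀ (by positivity)]
    nlinarith
  refine ⟨c, hc0, fun k q r s hk hq hr hs => ?_⟩
  have hpow : ∀ᶠ n : ℕ in atTop, c * (q * n + r) ^ (k / 2) ≤ c * (q * n + r) ^ (k * ρ.re) := by
    filter_upwards [(yy_tendsto (r := r) hq).eventually_ge_atTop 1] with n hn
    have h1 : 1 ≤ q * n + r := hn
    refine mul_le_mul_of_nonneg_left (Real.rpow_le_rpow_of_exponent_le h1 ?_) hc0.le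
    nlinarith
  exact ⟨(moebius_part hρ hρ2 hk hq hr (by linarith) hs).mono (hpow.mono fun n hn h => lt_of_le_of_lt hn h),
    (liouville_part hρ hρ2 hk hq hr (by linarith) hs).mono (hpow.mono fun n hn h => lt_of_le_of_lt hn h)⟩

lemma not_often {E : ℕ → Prop} : ¬ Often E ↔ ∃ δ : ℝ, 0 < δ ∧ ∀ᶠ N : ℕ in atTop, (cnt E N : ℝ) ≤ (N : ℝ) ^ (1 - δ) := by
  unfold Often
  push Not
  rfl

theorem criterion {k q r s θ : ℝ} (hk : 0 < k) (hq : 0 < q) (hr : 0 ≤ r) (hs : s = 1 ∨ s = -1)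
    (hθ : 1 / 2 ≤ θ) (hθ1 : θ ≤ 1) :
    ((∀ z : ℂ, θ < z.re → riemannZeta z ≠ 0) ↔ ∀ ε : ℝ, 0 < ε →
      ¬ Often fun n => (q * n + r) ^ (k * (θ + ε)) < s * M ((q * n + r) ^ k)) ∧
    ((∀ z : ℂ, θ < z.re → riemannZeta z ≠ 0) ↔ ∀ ε : ℝ, 0 < ε →
      ¬ Often fun n => (q * n + r) ^ (k * (θ + ε)) < s * L ((q * n + r) ^ k)) := by
  have h1 := crit md_mu fam_mu hk hq hr (abs_sg hs) hθ hθ1
  have h2 := crit md_la fam_la hk hq hr (abs_sg hs) hθ hθ1
  refine ⟨?_, ?_⟩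
  · rw [h1]
    simp only [M_eq, not_often]
    rfl
  · rw [h2]
    simp only [L_eq, not_often]
    rfl

theorem gonek_part {k q r s C : ℝ} (hk : 0 < k) (hq : 0 < q) (hr : 0 ≤ r) (hs : s = 1 ∨ s = -1)
    (h : (¬ Often fun n => C * F ((q * n + r) ^ k) < s * M ((q * n + r) ^ k)) ∨
      ¬ Often fun n => C * F ((q * n + r) ^ k) < s * L ((q * n + r) ^ k)) : RiemannHypothesis := by
  refine rh_free.2 ?_
  rcases h with h | h
  · obtain ⟨δ, hδ, h⟩ := not_often.1 h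
    refine gonek_bound (C := C) md_mu fam_mu hk hq hr (abs_sg hs) hδ ?_
    simp only [M_eq]
    exact h
  · obtain ⟨δ, hδ, h⟩ := not_often.1 h
    refine gonek_bound (C := C) md_la fam_la hk hq hr (abs_sg hs) hδ ?_
    simp only [L_eq]
    exact h

/-- **Oscillation of `M` and `L` along powers of arithmetic progressions**, unconditionally. -/
theorem result :
    -- Ingham's theorem along `x_n = (q n + r)^k`
    (∀ g : ℝ → ℝ, Kernel g → ∀ y k q r c s : ℝ, 0 < k → 0 < q → 0 ≤ r → s = 1 ∨ s = -1 →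
      (c < s * hM g y → Often fun n => c * (q * n + r) ^ (k / 2) < s * M ((q * n + r) ^ k)) ∧
      (c < s * hL g y → Often fun n => c * (q * n + r) ^ (k / 2) <
        s * (L ((q * n + r) ^ k) - 1 / z₀ * (q * n + r) ^ (k / 2)))) ∧
    (∀ T : ℝ, 0 < T → Kernel (fejer T) ∧ Kernel (jp T)) ∧
    -- single zeros, also off the critical line
    (∀ ρ : ℂ, riemannZeta ρ = 0 → 1 / 2 ≤ ρ.re → ∀ k q r c s : ℝ, 0 < k → 0 < q → 0 ≤ r → s = 1 ∨ s = -1 →
      (c * ‖ρ * deriv riemannZeta ρ‖ < 1 →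
        Often fun n => c * (q * n + r) ^ (k * ρ.re) < s * M ((q * n + r) ^ k)) ∧
      (c * ‖ρ * deriv riemannZeta ρ‖ < ‖riemannZeta (2 * ρ)‖ →
        Often fun n => c * (q * n + r) ^ (k * ρ.re) <
          s * (L ((q * n + r) ^ k) - 1 / z₀ * (q * n + r) ^ (k / 2)))) ∧
    -- one constant for all powers and all progressions
    (∃ c : ℝ, 0 < c ∧ ∀ k q r s : ℝ, 0 < k → 0 < q → 0 ≤ r → s = 1 ∨ s = -1 →
      (Often fun n => c * (q * n + r) ^ (k / 2) < s * M ((q * n + r) ^ k)) ∧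
      (Often fun n => c * (q * n + r) ^ (k / 2) <
        s * (L ((q * n + r) ^ k) - 1 / z₀ * (q * n + r) ^ (k / 2)))) ∧
    -- zero-free half-planes and the Riemann hypothesis
    (∀ k q r s θ : ℝ, 0 < k → 0 < q → 0 ≤ r → s = 1 ∨ s = -1 → 1 / 2 ≤ θ → θ ≤ 1 →
      ((∀ z : ℂ, θ < z.re → riemannZeta z ≠ 0) ↔ ∀ ε : ℝ, 0 < ε →
        ¬ Often fun n => (q * n + r) ^ (k * (θ + ε)) < s * M ((q * n + r) ^ k)) ∧
      ((∀ z : ℂ, θ < z.re → riemannZeta z ≠ 0) ↔ ∀ ε : ℝ, 0 < ε →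
        ¬ Often fun n => (q * n + r) ^ (k * (θ + ε)) < s * L ((q * n + r) ^ k))) ∧
    (∀ k q r s C : ℝ, 0 < k → 0 < q → 0 ≤ r → s = 1 ∨ s = -1 →
      (¬ Often fun n => C * F ((q * n + r) ^ k) < s * M ((q * n + r) ^ k)) ∨
        (¬ Often fun n => C * F ((q * n + r) ^ k) < s * L ((q * n + r) ^ k)) → RiemannHypothesis) :=
  ⟨fun _ hg _ _ _ _ _ _ hk hq hr hs => ⟨ingham_moebius hg hk hq hr hs, ingham_liouville hg hk hq hr hs⟩,
    fun _ hT => kernels hT,
    fun _ hρ hρ2 _ _ _ _ _ hk hq hr hs => ⟨fun hc => moebius_part hρ hρ2 hk hq hr hc hs,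
      fun hc => liouville_part hρ hρ2 hk hq hr hc hs⟩,
    uniform_part,
    fun _ _ _ _ _ hk hq hr hs hθ hθ1 => criterion hk hq hr hs hθ hθ1,
    fun _ _ _ _ _ hk hq hr hs h => gonek_part hk hq hr hs h⟩

end Pool.Agent.Results.MP_a499ba_nt.PowersOscillation
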