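import Pool.Agent.R303.SW.Mo
import Pool.Agent.W190.A17

/-!
# MP_a499ba_nt: increments of the Mertens function for one length in one window

`M(x) = ∑_{n ≤ x} μ(n)`, `F(x) = x^(1/2) (log log log x)^(5/4)`, as in Q1.

Let `1/2 ≤ θ < 1`, `κ ≥ 0` with `4θ(1-θ)(κ+1) ≤ 1`, and `c > 0`.  The half plane `Re s > θ` is free of zeros
of `ζ` if and only if for every small `ε > 0` there are arbitrarily large `X` and for each of them ONE
length `H` between `X^(1-ε)` and `X^(1-ε/2)` such that `|M(x + H/2) - M(x - H/2)| ≤ X^(θ+ε)` for all `x` in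
the window `[X, X + cX/(log X)^κ]` outside a set of measure `X^(1-2ε)`.

In particular the Riemann hypothesis follows if for some `K` the increments of such lengths are at most
`K F(x)`, up to small sets of `x`, in one window `[X, (1+c)X]` at each of infinitely many scales.

The lower bound for the increments is the library theorem `Pool.Agent.R303.SW.mu_large`.
-/

set_option autoImplicit false

open Filter Topology Set MeasureTheory
open Pool.Agent.W190 (SF rh_free)
open Pool.Agent.R303.SW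

namespace Pool.Agent.Results.MP_a499ba_nt.ShortIncrements

/-- `M(x)`, the sum of the Möbius function over the positive integers `n ≤ x` -/
noncomputable def Msum (x : ℝ) : ℝ :=
  ∑ n ∈ Finset.Icc 1 ⌊x⌋₊, ((ArithmeticFunction.moebius n : ℤ) : ℝ)

/-- `F(x) = x^(1/2) (log log log x)^(5/4)` -/
noncomputable def F (x : ℝ) : ℝ := x ^ (1 / 2 : ℝ) * Real.log (Real.log (Real.log x)) ^ (5 / 4 : ℝ)

/-- the increment `M(x + H/2) - M(x - H/2)` -/
noncomputable def inc (H x : ℝ) : ℝ := Msum (x + H / 2) - Msum (x - H / 2)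

/-- the window `[X, X + cX/(log X)^κ]` -/
def window (c κ X : ℝ) : Set ℝ := Icc X (X + c * X / Real.log X ^ κ)

/-- The increments of the length `H` in the window at `X` are at most `G x`, outside a set of measure at
most `V`. -/
def SmallOutside (c κ X H V : ℝ) (G : ℝ → ℝ) : Prop :=
  (volume {x : ℝ | x ∈ window c κ X ∧ G x < |inc H x|}).toReal ≤ V

/-- The half plane `Re s > θ` is free of zeros of `ζ`. -/
def ZeroFree (θ : ℝ) : Prop := ∀ s : ℂ, θ < s.re → riemannZeta s ≠ 0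

lemma Msum_eq (x : ℝ) : Msum x = SF muR x := rfl

lemma inc_eq (H x : ℝ) : inc H x = DF muR H x := rfl

/-- the zero free region from the increments -/
theorem free_of {θ κ c : ℝ} (hθ : 1 / 2 ≤ θ) (hκ : 0 ≤ κ) (hcond : 4 * θ * (1 - θ) * (κ + 1) ≤ 1)
    (hc : 0 < c)
    (h : ∀ ε : ℝ, 0 < ε → ε < 1 / 2 → ∃ᶠ X : ℝ in atTop, ∃ H : ℝ, X ^ (1 - ε) ≤ H ∧
      H ≤ X ^ (1 - ε / 2) ∧ SmallOutside c κ X H (X ^ (1 - 2 * ε)) fun _ => X ^ (θ + ε)) :
    ZeroFree θ := by
  intro s hs hz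
  set θ' := (θ + s.re) / 2 with hθ'
  have h1 : θ < θ' := by rw [hθ']; linarith
  have h2 : θ' < s.re := by rw [hθ']; linarith
  set ε := min (1 / 4) ((θ' - θ) / 4) with hε
  have hε0 : 0 < ε := lt_min (by norm_num) (by linarith)
  have hε1 : ε ≤ 1 / 4 := min_le_left _ _
  have hε2 : ε ≤ (θ' - θ) / 4 := min_le_right _ _
  have hcond' : 4 * θ' * (1 - θ') * (κ + 1) ≤ 1 := by
    refine le_trans ?_ hcond
    refine mul_le_mul_of_nonneg_right ?_ (by linarith)
    nlinarith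
  have h3 := mu_large θ' κ c (ε / 2) (by linarith) hκ hcond' hc (by linarith) (by linarith)
    ⟨s, hz, h2⟩
  obtain ⟨X, ⟨H, a1, a2, a3⟩, a4, a5⟩ := ((h ε hε0 (by linarith)).and_eventually
    (h3.and (eventually_gt_atTop 1))).exists
  have hX : 0 < X := by linarith
  have hH : 0 < H := lt_of_lt_of_le (Real.rpow_pos_of_pos hX _) a1
  have b1 := a4 H hH a2
  have b2 : (volume {x : ℝ | x ∈ Icc X (X + c * X / Real.log X ^ κ) ∧
      H * X ^ (θ' - 1) ≤ |DF muR H x|}).toReal ≤ X ^ (1 - 2 * ε) := by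
    refine le_trans (ENNReal.toReal_mono ?_ (measure_mono ?_)) a3
    · refine ne_top_of_le_ne_top ?_ (measure_mono (t := Icc X (X + c * X / Real.log X ^ κ))
        fun x hx => hx.1)
      rw [Real.volume_Icc]
      exact ENNReal.ofReal_ne_top
    · rintro x ⟨hx1, hx2⟩
      refine ⟨hx1, ?_⟩
      rw [inc_eq]
      refine lt_of_lt_of_le ?_ hx2
      have e1 : X ^ (θ' - ε) ≤ H * X ^ (θ' - 1) := by
        calc X ^ (θ' - ε) = X ^ (1 - ε) * X ^ (θ' - 1) := by
              rw [← Real.rpow_add hX]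
              congr 1
              ring
          _ ≤ _ := mul_le_mul_of_nonneg_right a1 (Real.rpow_nonneg hX.le _)
      refine lt_of_lt_of_le ?_ e1
      exact Real.rpow_lt_rpow_of_exponent_lt a5 (by linarith)
  have b3 : X ^ (1 - ε - ε / 2) ≤ H * X ^ (-(ε / 2)) := by
    calc X ^ (1 - ε - ε / 2) = X ^ (1 - ε) * X ^ (-(ε / 2)) := by
          rw [← Real.rpow_add hX]
          congr 1
      _ ≤ _ := mul_le_mul_of_nonneg_right a1 (Real.rpow_nonneg hX.le _)
  have b4 : X ^ (1 - 2 * ε) < X ^ (1 - ε - ε / 2) :=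
    Real.rpow_lt_rpow_of_exponent_lt a5 (by linarith)
  linarith

/-- the increments from the zero free region -/
theorem of_free {θ κ c : ℝ} (hθ : 1 / 2 ≤ θ) (hκ : 0 ≤ κ) (hc : 0 < c) (hfree : ZeroFree θ) {ε : ℝ}
    (hε : 0 < ε) : ∀ᶠ X : ℝ in atTop, ∀ H : ℝ, 0 < H → H ≤ X → ∀ x ∈ window c κ X,
      |inc H x| ≤ X ^ (θ + ε) := by
  obtain ⟨C, hC⟩ := H353.mertens_of_free θ hθ hfree (θ + ε / 2) (by linarith)
  have hC' : ∀ y : ℝ, 1 ≤ y → |SF muR y| ≤ C * y ^ (θ + ε / 2) := hC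
  have hC1 : 1 ≤ C := by
    have := hC' 1 le_rfl
    have e1 : SF muR 1 = 1 := by
      unfold SF muR
      simp
    rw [e1] at this
    simpa using this
  have t1 : ∀ᶠ X : ℝ in atTop, 2 * (C * (2 + c) ^ (θ + ε / 2)) ≤ X ^ (ε / 2) :=
    (tendsto_rpow_atTop (by linarith)).eventually_ge_atTop _
  filter_upwards [t1, eventually_ge_atTop 2, Real.tendsto_log_atTop.eventually_ge_atTop 1]
    with X g2 g4 g5 H hH hHX x hx
  have hX : 0 < X := by linarith
  have hw1 : c * X / Real.log X ^ κ ≤ c * X :=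
    div_le_self (by positivity) (Real.one_le_rpow g5 hκ)
  have hb : ∀ z : ℝ, z ≤ (2 + c) * X → |SF muR z| ≤ C * ((2 + c) * X) ^ (θ + ε / 2) := by
    intro z hz
    rcases le_or_gt 1 z with h | h
    · refine (hC' z h).trans ?_
      exact mul_le_mul_of_nonneg_left (Real.rpow_le_rpow (by linarith) hz (by linarith)) (by linarith)
    · have e2 : SF muR z = 0 := by
        unfold SF
        rw [Nat.floor_eq_zero.2 h]
        simp
      rw [e2, abs_zero]
      positivity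
  have hx1 : x ≤ X + c * X / Real.log X ^ κ := hx.2
  have h5 := hb (x + H / 2) (by nlinarith)
  have h6 := hb (x - H / 2) (by nlinarith)
  have h7 : |inc H x| ≤ |SF muR (x + H / 2)| + |SF muR (x - H / 2)| := abs_sub _ _
  refine h7.trans ?_
  have h8 : |SF muR (x + H / 2)| + |SF muR (x - H / 2)| ≤
      2 * (C * ((2 + c) * X) ^ (θ + ε / 2)) := by linarith
  refine h8.trans ?_
  rw [Real.mul_rpow (by linarith) hX.le]
  calc 2 * (C * ((2 + c) ^ (θ + ε / 2) * X ^ (θ + ε / 2))) =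
        2 * (C * (2 + c) ^ (θ + ε / 2)) * X ^ (θ + ε / 2) := by ring
    _ ≤ X ^ (ε / 2) * X ^ (θ + ε / 2) := by gcongr
    _ = X ^ (θ + ε) := by
        rw [← Real.rpow_add hX]
        congr 1
        ring

/-- `F(y) ≤ y^(1/2+ε)` for all large `y` -/
lemma F_le (ε : ℝ) (hε : 0 < ε) : ∀ᶠ y : ℝ in atTop, F y ≤ y ^ (1 / 2 + ε) := by
  have t1 : ∀ᶠ y : ℝ in atTop, Real.log y ≤ y ^ (ε * (4 / 5)) := by
    have h := (isLittleO_log_rpow_atTop (show 0 < ε * (4 / 5) by positivity)).bound (show (0:ℝ) < 1 by norm_num)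
    filter_upwards [h, eventually_ge_atTop 1] with y hy hy1
    rw [one_mul, Real.norm_eq_abs, Real.norm_eq_abs, abs_of_nonneg (Real.log_nonneg hy1),
      abs_of_nonneg (Real.rpow_nonneg (by linarith) _)] at hy
    exact hy
  have t2 : Tendsto (fun y : ℝ => Real.log (Real.log (Real.log y))) atTop atTop :=
    Real.tendsto_log_atTop.comp (Real.tendsto_log_atTop.comp Real.tendsto_log_atTop)
  have t3 : Tendsto (fun y : ℝ => Real.log (Real.log y)) atTop atTop :=
    Real.tendsto_log_atTop.comp Real.tendsto_log_atTop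
  filter_upwards [t1, t2.eventually_ge_atTop 0, t3.eventually_ge_atTop 1,
    Real.tendsto_log_atTop.eventually_ge_atTop 1, eventually_ge_atTop 1] with y a1 a2 a3 a4 a5
  have hy : 0 < y := by linarith
  have b1 : Real.log (Real.log (Real.log y)) ≤ Real.log y := by
    have h1 := Real.log_le_sub_one_of_pos (show 0 < Real.log (Real.log y) by linarith)
    have h2 := Real.log_le_sub_one_of_pos (show 0 < Real.log y by linarith)
    linarith
  unfold F
  calc y ^ (1 / 2 : ℝ) * Real.log (Real.log (Real.log y)) ^ (5 / 4 : ℝ)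
      ≤ y ^ (1 / 2 : ℝ) * (y ^ (ε * (4 / 5))) ^ (5 / 4 : ℝ) := by
        refine mul_le_mul_of_nonneg_left ?_ (by positivity)
        exact Real.rpow_le_rpow a2 (b1.trans a1) (by norm_num)
    _ = y ^ (1 / 2 + ε) := by
        rw [← Real.rpow_mul hy.le, ← Real.rpow_add hy]
        congr 1
        ring

/-- the bound with `F` -/
theorem rh_of {c K : ℝ} (hc : 0 < c)
    (h : ∀ ε : ℝ, 0 < ε → ε < 1 / 2 → ∃ᶠ X : ℝ in atTop, ∃ H : ℝ, X ^ (1 - ε) ≤ H ∧
      H ≤ X ^ (1 - ε / 2) ∧ SmallOutside c 0 X H (X ^ (1 - 2 * ε)) fun x => K * F x) :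
    RiemannHypothesis := by
  rw [rh_free]
  refine free_of (κ := 0) (c := c) le_rfl le_rfl (by norm_num) hc fun ε hε hε1 => ?_
  have t1 : ∀ᶠ x : ℝ in atTop, |K| * (1 + c) ^ (1 / 2 + ε / 2) ≤ x ^ (ε / 2) :=
    (tendsto_rpow_atTop (by linarith)).eventually_ge_atTop _
  obtain ⟨y₀, hy₀⟩ := eventually_atTop.1 (F_le (ε / 2) (by linarith))
  have t4 : ∀ᶠ y : ℝ in atTop, 0 ≤ F y := by
    have t2 : Tendsto (fun y : ℝ => Real.log (Real.log (Real.log y))) atTop atTop :=
      Real.tendsto_log_atTop.comp (Real.tendsto_log_atTop.comp Real.tendsto_log_atTop)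
    filter_upwards [t2.eventually_ge_atTop 0, eventually_ge_atTop 0] with y b1 b2
    unfold F
    positivity
  obtain ⟨y₁, hy₁⟩ := eventually_atTop.1 t4
  refine ((h ε hε hε1).and_eventually (t1.and ((eventually_ge_atTop y₀).and
    ((eventually_ge_atTop y₁).and (eventually_ge_atTop 1))))).mono ?_
  rintro X ⟨⟨H, h1, h2, h3⟩, g1, g2, g3, g4⟩
  have hX : 0 < X := by linarith
  refine ⟨H, h1, h2, le_trans (ENNReal.toReal_mono ?_ (measure_mono ?_)) h3⟩
  · refine ne_top_of_le_ne_top ?_ (measure_mono (t := window c 0 X) fun x hx => hx.1)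
    unfold window
    rw [Real.volume_Icc]
    exact ENNReal.ofReal_ne_top
  · rintro x ⟨hx1, hx2⟩
    refine ⟨hx1, lt_of_le_of_lt ?_ hx2⟩
    have hx3 : X ≤ x := hx1.1
    have hx4 : x ≤ (1 + c) * X := by
      have := hx1.2
      rw [Real.rpow_zero, div_one] at this
      linarith
    have b1 := hy₀ x (by linarith)
    have b2 := hy₁ x (by linarith)
    calc K * F x ≤ |K| * F x := mul_le_mul_of_nonneg_right (le_abs_self K) b2
      _ ≤ |K| * x ^ (1 / 2 + ε / 2) := mul_le_mul_of_nonneg_left b1 (abs_nonneg K)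
      _ ≤ |K| * ((1 + c) * X) ^ (1 / 2 + ε / 2) :=
          mul_le_mul_of_nonneg_left (Real.rpow_le_rpow (by linarith) hx4 (by linarith))
            (abs_nonneg K)
      _ = |K| * (1 + c) ^ (1 / 2 + ε / 2) * X ^ (1 / 2 + ε / 2) := by
          rw [Real.mul_rpow (by linarith) hX.le]
          ring
      _ ≤ X ^ (ε / 2) * X ^ (1 / 2 + ε / 2) := by gcongr
      _ = X ^ (1 / 2 + ε) := by
          rw [← Real.rpow_add hX]
          congr 1
          ring

/-- **Increments of the Mertens function.**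
1. Let `1/2 ≤ θ`, `κ ≥ 0`, `4θ(1-θ)(κ+1) ≤ 1`, `c > 0`.  If `ζ` has no zeros with `Re s > θ`, then for every
`ε > 0`, all large `X`, all `0 < H ≤ X` and all `x` in the window, `|M(x + H/2) - M(x - H/2)| ≤ X^(θ+ε)`.
Conversely, `ζ` has no zeros with `Re s > θ`, if for every `0 < ε < 1/2` there are arbitrarily large `X` and
for each of them one `H` with `X^(1-ε) ≤ H ≤ X^(1-ε/2)` for which this holds for all `x` in the window
outside a set of measure `X^(1-2ε)`.
2. If for some `K` and `c > 0` and every `0 < ε < 1/2` there are arbitrarily large `X` and `H` as above with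
`|M(x + H/2) - M(x - H/2)| ≤ K F(x)` for all `x` in `[X, (1+c)X]` outside a set of measure `X^(1-2ε)`, then
the Riemann hypothesis holds. -/
theorem result :
    (∀ θ κ c : ℝ, 1 / 2 ≤ θ → 0 ≤ κ → 4 * θ * (1 - θ) * (κ + 1) ≤ 1 → 0 < c →
      (ZeroFree θ → ∀ ε : ℝ, 0 < ε → ∀ᶠ X : ℝ in atTop, ∀ H : ℝ, 0 < H → H ≤ X →
        ∀ x ∈ window c κ X, |inc H x| ≤ X ^ (θ + ε)) ∧
      ((∀ ε : ℝ, 0 < ε → ε < 1 / 2 → ∃ᶠ X : ℝ in atTop, ∃ H : ℝ, X ^ (1 - ε) ≤ H ∧
        H ≤ X ^ (1 - ε / 2) ∧ SmallOutside c κ X H (X ^ (1 - 2 * ε)) fun _ => X ^ (θ + ε)) →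
        ZeroFree θ)) ∧
    ∀ c K : ℝ, 0 < c →
      (∀ ε : ℝ, 0 < ε → ε < 1 / 2 → ∃ᶠ X : ℝ in atTop, ∃ H : ℝ, X ^ (1 - ε) ≤ H ∧
        H ≤ X ^ (1 - ε / 2) ∧ SmallOutside c 0 X H (X ^ (1 - 2 * ε)) fun x => K * F x) →
      RiemannHypothesis :=
  ⟨fun _ _ _ hθ hκ hcond hc => ⟨fun hf _ hε => of_free hθ hκ hc hf hε,
    fun h => free_of hθ hκ hcond hc h⟩, fun _ _ hc h => rh_of hc h⟩

end Pool.Agent.Results.MP_a499ba_nt.ShortIncrements
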