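import Pool.Agent.U441.MP.Wf

/-!
# The Mertens and Liouville functions along powers in every window

Let `k > 0`, `q > 0`, `r ≥ 0` be real numbers and `x_n = (q n + r)^k`, for instance the `k`-th powers of the
integers. We prove, without any hypothesis, that in EVERY window `[x, x log x]`, `x` large, nearly all (in the sense
of exponents) of the points `x_n` show the extreme size of both signs: let `ρ` be a zero of `ζ` of multiplicity `m`
with `Re ρ ≥ 1/2`. There is `c > 0` such that for every `ε > 0`, for ALL large `x` and both signs `s`, at least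
`x^(1/k - ε)` of the `n` with `x ≤ x_n ≤ x log x` satisfy

`s M(x_n) ≥ c x_n^(Re ρ) (log x_n)^(m - 1)`,

and the same is true for `L(x_n) - x_n^(1/2)/ζ(1/2)`. (There are about `(x log x)^(1/k)/q` such `n`.)

Consequently: if for one sequence `x_n`, one sign `s` and one `δ > 0` there are for every `ε > 0` arbitrarily large `x`
such that `s M(x_n) ≤ ε x_n^(1/2) log x_n` for all `n` with `x_n` in `[x, x log x]` but at most `x^(1/k - δ)` of them,
then the Riemann hypothesis holds and all nontrivial zeros of `ζ` are simple. The same with `L`, and with the bound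
`K F(x_n)`, `F` the function of the problem.

Method: `M` and the centered `L` in the logarithmic scale are averaged against kernels which detect the zero `ρ` with
its multiplicity and against a positive kernel (libraries `H313R3.TK` and `U645.LB`). The averages are compared with
the sums over the points `x_n`, weighted by the kernels, by partial summation from the power saving estimate
`∑_{n ≤ N} M(x_n) = ∫_1^N M(x_u) du + O(N^(kσ + 2/3 + ε))`, `σ` the supremum of the real parts of the zeros, of the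
library `U441.MP` (mean values of Dirichlet polynomials). If `Re ρ` is too small for this comparison another zero is
used. The upper bound `M(x) ≪ x^(σ + ε)` gives the number of points.
-/

set_option autoImplicit false

open Filter Topology Set

namespace Pool.Agent.Results.MP_a499ba_nt.WindowsAlongPowers

/-- the Mertens function `M(x)` -/
noncomputable def M (x : ℝ) : ℤ := ∑ n ∈ Finset.Icc 1 ⌊x⌋₊, ArithmeticFunction.moebius n

/-- the summatory function `L(x)` of the Liouville function `(-1)^Ω(n)` -/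
noncomputable def L (x : ℝ) : ℤ := ∑ n ∈ Finset.Icc 1 ⌊x⌋₊, (-1) ^ ArithmeticFunction.cardFactors n

/-- `F(x) = x^(1/2) (log log log x)^(5/4)` -/
noncomputable def F (x : ℝ) : ℝ := x ^ (1 / 2 : ℝ) * Real.log (Real.log (Real.log x)) ^ (5 / 4 : ℝ)

/-- `ζ(1/2)`, a real number -/
noncomputable def z₀ : ℝ := (riemannZeta (1 / 2)).re

/-- the centered function `L(x) - √x / ζ(1/2)` -/
noncomputable def Lc (x : ℝ) : ℝ := L x - Real.sqrt x / z₀

/-- the number of the `n ≥ 1` such that `x_n = (q n + r)^k` lies in `[x, x log x]` and has the property `E` -/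
noncomputable def num (k q r x : ℝ) (E : ℝ → Prop) : ℕ :=
  Set.ncard {n : ℕ | 1 ≤ n ∧ x ≤ (q * n + r) ^ k ∧ (q * n + r) ^ k ≤ x * Real.log x ∧ E ((q * n + r) ^ k)}

/-- there is `c > 0` such that for every `ε > 0`, for all large `x` and both signs `s`, at least `x^(1/k - ε)` of the
`n` with `x_n = (q n + r)^k` in `[x, x log x]` satisfy `s f(x_n) ≥ c g(x_n)` -/
def BothSigns (f g : ℝ → ℝ) (k q r : ℝ) : Prop :=
  ∃ c : ℝ, 0 < c ∧ ∀ ε : ℝ, 0 < ε → ∀ᶠ x : ℝ in atTop, ∀ s : ℝ, s = 1 ∨ s = -1 →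
    x ^ (1 / k - ε) ≤ num k q r x (fun y => c * g y ≤ s * f y)

/-- for arbitrarily large `x`, at most `x^(1/k - δ)` of the `n` with `x_n = (q n + r)^k` in `[x, x log x]` do not
satisfy `s f(x_n) ≤ g(x_n)` -/
def FewAbove (f g : ℝ → ℝ) (k q r s δ : ℝ) : Prop :=
  ∃ᶠ x : ℝ in atTop, (num k q r x (fun y => g y < s * f y) : ℝ) ≤ x ^ (1 / k - δ)

/-- the Riemann hypothesis and the simplicity of all nontrivial zeros -/
def RHSimple : Prop :=
  ∀ ρ : ℂ, riemannZeta ρ = 0 → 0 < ρ.re → ρ.re = 1 / 2 ∧ deriv riemannZeta ρ ≠ 0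

open U441.MP

lemma M_eq (x : ℝ) : Sa muR x = (M x : ℝ) := by
  unfold Sa M muR
  push_cast
  rfl

lemma L_eq (x : ℝ) : Sa laR x = (L x : ℝ) := by
  unfold Sa L
  push_cast
  refine Finset.sum_congr rfl fun n hn => ?_
  rw [Finset.mem_Icc] at hn
  exact laR_eq (by omega)

lemma z₀_eq : z₀ = Pool.Agent.U645.LB.Z := by
  unfold z₀
  rw [Pool.Agent.U645.LB.zeta_half, Complex.ofReal_re]

lemma Lc_eq (x : ℝ) : Sa laR x - 1 / Pool.Agent.U645.LB.Z * x ^ (1 / 2 : ℝ) = Lc x := by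
  unfold Lc
  rw [L_eq, z₀_eq, Real.sqrt_eq_rpow]
  ring

lemma Mc_eq (x : ℝ) : Sa muR x - 0 * x ^ (1 / 2 : ℝ) = M x := by
  rw [M_eq, zero_mul, sub_zero]

lemma fin_set {k q r : ℝ} (hk : 0 < k) (hq : 0 < q) (x : ℝ) (E : ℝ → Prop) :
    {n : ℕ | 1 ≤ n ∧ x ≤ (q * n + r) ^ k ∧ (q * n + r) ^ k ≤ x * Real.log x ∧ E ((q * n + r) ^ k)}.Finite := by
  have h1 : Tendsto (fun n : ℕ => (q * n + r) ^ k) atTop atTop :=
    (tendsto_rpow_atTop hk).comp (yy_tendsto (r := r) hq)
  obtain ⟨N, hN⟩ := eventually_atTop.1 (h1.eventually_gt_atTop (x * Real.log x))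
  refine (Set.finite_Iio N).subset fun n hn => ?_
  by_contra hcon
  exact absurd hn.2.2.1 (not_le.2 (hN n (not_lt.1 hcon)))

lemma card_le {k q r : ℝ} (hk : 0 < k) (hq : 0 < q) {x : ℝ} {E : ℝ → Prop} {G : Finset ℕ}
    (hG : ∀ n ∈ G, 1 ≤ n ∧ x ≤ yy q r n ^ k ∧ yy q r n ^ k ≤ x * Real.log x ∧ E (yy q r n ^ k)) :
    G.card ≤ num k q r x E := by
  unfold num
  rw [← Set.ncard_coe_finset]
  exact Set.ncard_le_ncard (fun n hn => hG n hn) (fin_set hk hq x E)

lemma both {a : ℕ → ℝ} {R lm : ℝ} (h : Good a R lm) {f : ℝ → ℝ}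
    (hf : ∀ x, Sa a x - R * x ^ (1 / 2 : ℝ) = f x) {k q r : ℝ} (hk : 0 < k) (hq : 0 < q) (hr : 0 ≤ r)
    {ρ : ℂ} (hz : riemannZeta ρ = 0) (h0 : 1 / 2 ≤ ρ.re) :
    BothSigns f (fun y => y ^ ρ.re * Real.log y ^ (analyticOrderNatAt riemannZeta ρ - 1)) k q r := by
  have h1 : ρ.re < 1 := by
    by_contra hcon
    exact riemannZeta_ne_zero_of_one_le_re (not_lt.1 hcon) hz
  obtain ⟨c, hc, hev⟩ := winF h hk hq hr hz h0 (Pool.Agent.U645.LB.order_pos hz h1)
  refine ⟨c, hc, fun ε hε => (hev ε hε).mono fun x hx s hs => ?_⟩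
  obtain ⟨G, hG, hcard⟩ := hx s hs
  refine hcard.trans ?_
  exact_mod_cast card_le hk hq (E := fun y => c * (y ^ ρ.re * Real.log y ^ (analyticOrderNatAt riemannZeta ρ - 1)) ≤
    s * f y) fun n hn => by
    obtain ⟨hn1, hn2, hn3, hn4⟩ := hG n hn
    rw [hf] at hn4
    exact ⟨hn1, hn2, hn3, hn4⟩

lemma num_mono {k q r : ℝ} (hk : 0 < k) (hq : 0 < q) {x : ℝ} {E₁ E₂ : ℝ → Prop}
    (h : ∀ y, x ≤ y → E₁ y → E₂ y) : num k q r x E₁ ≤ num k q r x E₂ :=
  Set.ncard_le_ncard (fun _ hn => ⟨hn.1, hn.2.1, hn.2.2.1, h _ hn.2.1 hn.2.2.2⟩) (fin_set hk hq x E₂)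

lemma both_half {a : ℕ → ℝ} {R lm : ℝ} (h : Good a R lm) {f : ℝ → ℝ}
    (hf : ∀ x, Sa a x - R * x ^ (1 / 2 : ℝ) = f x) {k q r : ℝ} (hk : 0 < k) (hq : 0 < q) (hr : 0 ≤ r) :
    BothSigns f Real.sqrt k q r := by
  obtain ⟨ρ, hz, h0, h1⟩ := H313.TK.exists_zero
  obtain ⟨c, hc, hev⟩ := both h hf hk hq hr hz h0
  refine ⟨c, hc, fun ε hε => ?_⟩
  filter_upwards [hev ε hε, eventually_ge_atTop (Real.exp 1)] with x hx hx1 s hs
  refine (hx s hs).trans ?_
  exact_mod_cast num_mono hk hq fun y hy hE => by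
    have hy1 : Real.exp 1 ≤ y := hx1.trans hy
    have hy0 : 0 < y := (Real.exp_pos 1).trans_le hy1
    have hl : 1 ≤ Real.log y := by rwa [Real.le_log_iff_exp_le hy0]
    have h1y : 1 ≤ y := by
      have := Real.add_one_le_exp (1:ℝ)
      linarith
    refine le_trans ?_ hE
    refine mul_le_mul_of_nonneg_left ?_ hc.le
    have e1 : Real.sqrt y ≤ y ^ ρ.re := by
      rw [Real.sqrt_eq_rpow]
      exact Real.rpow_le_rpow_of_exponent_le h1y h0
    have e2 : 1 ≤ Real.log y ^ (analyticOrderNatAt riemannZeta ρ - 1) := one_le_pow₀ hl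
    have e3 : 0 ≤ y ^ ρ.re := Real.rpow_nonneg hy0.le _
    nlinarith

lemma one {a : ℕ → ℝ} {R lm : ℝ} (h : Good a R lm) {f : ℝ → ℝ} (hf : ∀ x, Sa a x = f x)
    {k q r s δ : ℝ} (hk : 0 < k) (hq : 0 < q) (hr : 0 ≤ r) (hs : s = 1 ∨ s = -1) (hδ : 0 < δ)
    (hb : ∀ ε : ℝ, 0 < ε → FewAbove f (fun y => ε * (Real.sqrt y * Real.log y)) k q r s δ) : RHSimple := by
  intro ρ hz h0
  refine one_sided h hk hq hr hs hδ (fun ε hε => (hb ε hε).mono fun x hx G hG => ?_) ρ hz h0
  refine le_trans ?_ hx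
  exact_mod_cast card_le hk hq (E := fun y => ε * (Real.sqrt y * Real.log y) < s * f y) fun n hn => by
    obtain ⟨hn1, hn2, hn3, hn4⟩ := hG n hn
    rw [hf, ← Real.sqrt_eq_rpow] at hn4
    exact ⟨hn1, hn2, hn3, hn4⟩

lemma F_small (K : ℝ) {ε : ℝ} (hε : 0 < ε) :
    ∀ᶠ x : ℝ in atTop, ∀ y ≥ x, K * F y ≤ ε * (Real.sqrt y * Real.log y) := by
  have h1 : ∀ᶠ u : ℝ in atTop, |K| * Real.log (Real.log u) ^ (5 / 4 : ℝ) ≤ ε * u := by
    have h2 := (isLittleO_log_rpow_rpow_atTop (s := 1) (5 / 4) one_pos).bound (c := ε / (|K| + 1)) (by positivity)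
    filter_upwards [h2, eventually_ge_atTop (Real.exp 1)] with u hu hu1
    have hu0 : 0 < u := (Real.exp_pos 1).trans_le hu1
    have hl1 : 1 ≤ Real.log u := by rwa [Real.le_log_iff_exp_le hu0]
    have hll : 0 ≤ Real.log (Real.log u) := Real.log_nonneg hl1
    have h3 : Real.log (Real.log u) ≤ Real.log u := by
      have := Real.log_le_sub_one_of_pos (show 0 < Real.log u by linarith)
      linarith
    have h4 : Real.log (Real.log u) ^ (5 / 4 : ℝ) ≤ Real.log u ^ (5 / 4 : ℝ) :=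
      Real.rpow_le_rpow hll h3 (by norm_num)
    rw [Real.norm_of_nonneg (by positivity), Real.norm_of_nonneg (by positivity), Real.rpow_one] at hu
    have h5 : 0 ≤ |K| := abs_nonneg K
    calc |K| * Real.log (Real.log u) ^ (5 / 4 : ℝ) ≤ (|K| + 1) * Real.log u ^ (5 / 4 : ℝ) := by
          have h6 : 0 ≤ Real.log u ^ (5 / 4 : ℝ) := by positivity
          nlinarith [mul_le_mul_of_nonneg_left h4 h5]
      _ ≤ (|K| + 1) * (ε / (|K| + 1) * u) := by gcongr
      _ = ε * u := by field_simp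
  obtain ⟨N, hN⟩ := (Real.tendsto_log_atTop.eventually (h1.and (eventually_ge_atTop (Real.exp 1)))).exists_forall_of_atTop
  filter_upwards [eventually_ge_atTop N, eventually_ge_atTop (1:ℝ)] with x hx hx1 y hy
  obtain ⟨h2, h3⟩ := hN y (hx.trans hy)
  have hy0 : 0 < y := by linarith
  have hl1 : 1 ≤ Real.log (Real.log y) := by
    rwa [Real.le_log_iff_exp_le ((Real.exp_pos 1).trans_le h3)]
  have hlll : 0 ≤ Real.log (Real.log (Real.log y)) := Real.log_nonneg hl1
  unfold F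
  rw [← Real.sqrt_eq_rpow]
  have h4 : K * Real.log (Real.log (Real.log y)) ^ (5 / 4 : ℝ) ≤ |K| * Real.log (Real.log (Real.log y)) ^ (5 / 4 : ℝ) :=
    mul_le_mul_of_nonneg_right (le_abs_self K) (by positivity)
  calc K * (Real.sqrt y * Real.log (Real.log (Real.log y)) ^ (5 / 4 : ℝ)) =
        Real.sqrt y * (K * Real.log (Real.log (Real.log y)) ^ (5 / 4 : ℝ)) := by ring
    _ ≤ Real.sqrt y * (ε * Real.log y) := mul_le_mul_of_nonneg_left (h4.trans h2) (Real.sqrt_nonneg y)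
    _ = _ := by ring

lemma toF {f : ℝ → ℝ} {k q r s δ K : ℝ} (hk : 0 < k) (hq : 0 < q)
    (h : FewAbove f (fun y => K * F y) k q r s δ) (ε : ℝ) (hε : 0 < ε) :
    FewAbove f (fun y => ε * (Real.sqrt y * Real.log y)) k q r s δ := by
  refine (h.and_eventually (F_small K hε)).mono fun x hx => ?_
  refine le_trans ?_ hx.1
  exact_mod_cast num_mono hk hq fun y hy hE => lt_of_le_of_lt (hx.2 y hy) hE

theorem result :
    (riemannZeta (1 / 2) = (z₀ : ℂ) ∧ z₀ < 0) ∧
    ∀ k q r : ℝ, 0 < k → 0 < q → 0 ≤ r →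
      (∀ ρ : ℂ, riemannZeta ρ = 0 → 1 / 2 ≤ ρ.re →
        BothSigns (fun x => M x) (fun y => y ^ ρ.re * Real.log y ^ (analyticOrderNatAt riemannZeta ρ - 1)) k q r ∧
        BothSigns Lc (fun y => y ^ ρ.re * Real.log y ^ (analyticOrderNatAt riemannZeta ρ - 1)) k q r) ∧
      (BothSigns (fun x => M x) Real.sqrt k q r ∧ BothSigns Lc Real.sqrt k q r) ∧
      (∀ s δ : ℝ, s = 1 ∨ s = -1 → 0 < δ →
        ((∀ ε : ℝ, 0 < ε → FewAbove (fun x => M x) (fun y => ε * (Real.sqrt y * Real.log y)) k q r s δ) ∨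
          (∀ ε : ℝ, 0 < ε → FewAbove (fun x => L x) (fun y => ε * (Real.sqrt y * Real.log y)) k q r s δ)) →
        RHSimple) ∧
      (∀ s δ K : ℝ, s = 1 ∨ s = -1 → 0 < δ →
        (FewAbove (fun x => M x) (fun y => K * F y) k q r s δ ∨
          FewAbove (fun x => L x) (fun y => K * F y) k q r s δ) → RHSimple) := by
  refine ⟨⟨?_, ?_⟩, fun k q r hk hq hr => ⟨fun ρ hz h0 => ⟨?_, ?_⟩, ⟨?_, ?_⟩, ?_, ?_⟩⟩
  · rw [z₀_eq]
    exact Pool.Agent.U645.LB.zeta_half
  · rw [z₀_eq]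
    exact Pool.Agent.U645.LB.Z_neg
  · exact both goodM Mc_eq hk hq hr hz h0
  · exact both goodL Lc_eq hk hq hr hz h0
  · exact both_half goodM Mc_eq hk hq hr
  · exact both_half goodL Lc_eq hk hq hr
  · rintro s δ hs hδ (h | h)
    · exact one goodM M_eq hk hq hr hs hδ h
    · exact one goodL L_eq hk hq hr hs hδ h
  · rintro s δ K hs hδ (h | h)
    · exact one goodM M_eq hk hq hr hs hδ (toF hk hq h)
    · exact one goodL L_eq hk hq hr hs hδ (toF hk hq h)

end Pool.Agent.Results.MP_a499ba_nt.WindowsAlongPowers
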